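import Pool.Agent.Q189.CylProj

/-!
# MP_f102ee_gt: the answer to Q1 is no

Every monotonic symmetrization which is invariant on `H`-symmetric spherical cylinders is
projection invariant; strict monotonicity and idempotence are not needed.
-/

set_option autoImplicit false

namespace Pool.Agent.Results.MP_f102ee_gt.AlwaysInvariant

open Q189.SymDefs

/-- `D` is strictly monotonic: it is monotonic, and `K ⊆ L`, `K ≠ L` imply `D K ≠ D L`. -/
def StrictlyMonotonic {n : ℕ} (𝓑 : Set (Set (E n))) (D : Set (E n) → Set (E n)) : Prop :=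
  Monotonic 𝓑 D ∧ ∀ K ∈ 𝓑, ∀ L ∈ 𝓑, K ⊆ L → K ≠ L → D K ≠ D L

/-- `D` is idempotent. -/
def Idempotent {n : ℕ} (𝓑 : Set (Set (E n))) (D : Set (E n) → Set (E n)) : Prop :=
  ∀ K ∈ 𝓑, D (D K) = D K

/-- **Theorem.** Let `H` be any linear subspace of `ℝⁿ` (any `n`, any dimension of `H`) and let `𝓑`
be `𝓚ⁿ` or `𝓚ⁿₙ`. Every monotonic symmetrization `𝓑 → 𝓑_H` which is invariant on `H`-symmetric
spherical cylinders is projection invariant. Hence no strictly monotonic and idempotent
symmetrization which is invariant on `H`-symmetric spherical cylinders fails to be projection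
invariant. -/
theorem result (n : ℕ) (H : Submodule ℝ (E n)) (𝓑 : Set (Set (E n)))
    (h𝓑 : 𝓑 = compactConvexSets n ∨ 𝓑 = convexBodies n) :
    (∀ D : Set (E n) → Set (E n), IsSymmetrization 𝓑 H D → Monotonic 𝓑 D →
      InvariantOnCylinders H D → ProjectionInvariant 𝓑 H D) ∧
    ¬ ∃ D : Set (E n) → Set (E n), IsSymmetrization 𝓑 H D ∧ StrictlyMonotonic 𝓑 D ∧
      Idempotent 𝓑 D ∧ InvariantOnCylinders H D ∧ ¬ ProjectionInvariant 𝓑 H D := by
  have key : ∀ D : Set (E n) → Set (E n), IsSymmetrization 𝓑 H D → Monotonic 𝓑 D →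
      InvariantOnCylinders H D → ProjectionInvariant 𝓑 H D :=
    fun D h1 h2 h3 => Q189.CylProj.main H 𝓑 h𝓑 D h1.mem h2 h3
  refine ⟨key, ?_⟩
  rintro ⟨D, h1, h2, -, h4, h5⟩
  exact h5 (key D h1 h2.1 h4)

end Pool.Agent.Results.MP_f102ee_gt.AlwaysInvariant
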